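import Pool.Agent.W2helper37.DP.All
import Pool.Agent.W2helper37.DP.Trees

/-!
# Powers and `S_fin(D_Ω, D_Ω)` (Q2)

* In ZFC: for a space `X` with `S_fin(D_Ω, D_Ω)` the following are equivalent: the square of `X` satisfies the
  countable chain condition; the square satisfies `S_fin(D_Ω, D_Ω)`; the square satisfies `S_fin(D, D)`;
  all powers `X ^ κ`, finite or infinite, satisfy `S_fin(D_Ω, D_Ω)` and `S_fin(D, D)`.
* All spaces with `S_fin(D_Ω, D_Ω)` have this property if and only if there is no free Suslin tree; there is none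
  under Martin's axiom for `ℵ₁` dense sets, and there is one under diamond.

Definitions: `Sfin` (for `S_fin(D_Ω, D_Ω)`), `FreeSuslin`: `Pool.Agent.H42.DomDefs`; `SfinD` (for
`S_fin(D, D)`): `Pool.Agent.W2helper37.DP.Asm`; `CCC`: `Pool.Agent.W2helper37.DP.Stm`; `MA1`:
`Pool.Agent.H57.AroDefs`; `Diamond`: `Pool.Agent.H30.DiaDefs`.
-/

set_option autoImplicit false

namespace Pool.Agent.Results.MP_9098dd_gt.FiniteSelections

open Pool.Agent.H42.Dom Pool.Agent.W2helper37.DP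

universe u v

/-- The powers of a space with `S_fin(D_Ω, D_Ω)`. -/
theorem result :
    (∀ (X : Type u) [TopologicalSpace X], Sfin X →
      (CCC (Fin 2 → X) ↔ Sfin (Fin 2 → X)) ∧ (CCC (Fin 2 → X) ↔ SfinD (Fin 2 → X)) ∧
        (CCC (Fin 2 → X) → ∀ ι : Type v, Sfin (ι → X) ∧ SfinD (ι → X))) ∧
    ((∀ (X : Type) [TopologicalSpace X], Sfin X → CCC (Fin 2 → X)) ↔
      ¬ ∃ (T : Type) (_ : PartialOrder T), FreeSuslin T) ∧
    (Pool.Agent.H57.Aro.MA1 → ¬ ∃ (T : Type) (_ : PartialOrder T), FreeSuslin T) ∧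
    (Pool.Agent.H30.Dia.Diamond → ∃ (T : Type) (_ : PartialOrder T), FreeSuslin T) := by
  refine ⟨fun X _ h => ⟨⟨fun h2 => ?_, fun h2 => ?_⟩, ⟨fun h2 => ?_, fun h2 => ?_⟩, fun h2 ι => ?_⟩,
    ⟨fun h hT => ?_, fun hn X _ h => (main_all.{0, 0}).2.1 hn X h⟩, ma_no_suslin, diamond_suslin⟩
  · exact ((main_all.{u, 0}).1 X (Or.inl h2)).2 h (Fin 2) |>.1
  · exact Pool.Agent.W2helper19.DP.p_ccc (sfin_iff.1 h2)
  · exact ((main_all.{u, 0}).1 X (Or.inl h2)).2 h (Fin 2) |>.2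
  · exact ccc_of_selD (sfinD_iff.1 h2)
  · exact ((main_all.{u, v}).1 X (Or.inl h2)).2 h ι
  · obtain ⟨X, _, -, -, h1, h2, -⟩ := (main_all.{0, 0}).2.2 hT
    exact h2 (h X (sfin_iff.2 (sel_weak (s1_iff.1 h1))))

end Pool.Agent.Results.MP_9098dd_gt.FiniteSelections
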