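import Pool.Agent.W2helper37.DP.All
import Pool.Agent.W2helper37.DP.Trees

/-!
# Powers and `S_1(D_Ω, D_Ω)` (Q1)

* In ZFC: if `X` satisfies `S_1(D_Ω, D_Ω)` and the square of `X` satisfies the countable chain condition
  (for instance if the square satisfies `S_fin(D_Ω, D_Ω)`, or `S_fin(D, D)`), then all powers `X ^ κ`,
  finite or infinite, satisfy `S_1(D_Ω, D_Ω)` and `S_1(D, D)`.
* If there is no free Suslin tree (for instance under Martin's axiom), the square of a space with
  `S_1(D_Ω, D_Ω)` always satisfies the countable chain condition.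
* Every free Suslin tree (they exist under diamond) gives a zero-dimensional Hausdorff space with
  `S_1(D_Ω, D_Ω)` whose square does not satisfy the countable chain condition and fails
  `S_1(D_Ω, D_Ω)`, `S_fin(D_Ω, D_Ω)` and `S_fin(D, D)`.

So Q1 is equivalent to the non-existence of free Suslin trees; it is true under Martin's axiom for
`ℵ₁` dense sets and false under diamond.

Definitions: `S1`, `Sfin` (for `S_1(D_Ω, D_Ω)`, `S_fin(D_Ω, D_Ω)`), `FreeSuslin`: `Pool.Agent.H42.DomDefs`;
`S1D`, `SfinD` (for `S_1(D, D)`, `S_fin(D, D)`): `Pool.Agent.W2helper37.DP.Asm`; `CCC`: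
`Pool.Agent.W2helper37.DP.Stm`; `MA1`: `Pool.Agent.H57.AroDefs`; `Diamond`: `Pool.Agent.H30.DiaDefs`.
-/

set_option autoImplicit false

namespace Pool.Agent.Results.MP_9098dd_gt.SingleSelections

open Pool.Agent.H42.Dom Pool.Agent.W2helper37.DP

universe u v

/-- The powers of a space with `S_1(D_Ω, D_Ω)`: they all satisfy `S_1(D_Ω, D_Ω)` and `S_1(D, D)` as soon as
the square satisfies the countable chain condition; spaces for which this fails exist if and only if
there is a free Suslin tree, which is excluded by Martin's axiom and follows from diamond. -/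
theorem result :
    (∀ (X : Type u) [TopologicalSpace X], S1 X →
      (CCC (Fin 2 → X) ∨ Sfin (Fin 2 → X) ∨ SfinD (Fin 2 → X)) →
        ∀ ι : Type v, S1 (ι → X) ∧ (Nonempty X → S1D (ι → X))) ∧
    ((¬ ∃ (T : Type) (_ : PartialOrder T), FreeSuslin T) →
      ∀ (X : Type u) [TopologicalSpace X], S1 X → CCC (Fin 2 → X)) ∧
    ((∃ (T : Type) (_ : PartialOrder T), FreeSuslin T) →
      ∃ (X : Type) (_ : TopologicalSpace X), T2Space X ∧
        TopologicalSpace.IsTopologicalBasis {s : Set X | IsClopen s} ∧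
        S1 X ∧ ¬ CCC (Fin 2 → X) ∧ ¬ S1 (Fin 2 → X) ∧ ¬ Sfin (Fin 2 → X) ∧
        ¬ SfinD (Fin 2 → X)) ∧
    (Pool.Agent.H57.Aro.MA1 → ¬ ∃ (T : Type) (_ : PartialOrder T), FreeSuslin T) ∧
    (Pool.Agent.H30.Dia.Diamond → ∃ (T : Type) (_ : PartialOrder T), FreeSuslin T) :=
  ⟨fun X _ h h2 => ((main_all.{u, v}).1 X h2).1 h,
    fun hn X _ h => (main_all.{u, v}).2.1 hn X (sfin_iff.2 (sel_weak (s1_iff.1 h))),
    (main_all.{u, v}).2.2, ma_no_suslin, diamond_suslin⟩

end Pool.Agent.Results.MP_9098dd_gt.SingleSelections
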